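import Pool.Agent.W500.FL.Stm

set_option autoImplicit false

namespace Pool.Agent.W819.FL

open Polynomial Pool.Agent.W500.FL

theorem main : S_J → S_NT → S_FR → S_R → S_V → S_U → S_DEL → S_STA := by
  intro hJ hNT hFR hR hV hU hDEL
  intro K _ _ _ p _ _ hchar H t hH ht
  classical
  obtain ⟨-, hJmul, hJdvd, hJC, hJrec, -, -⟩ := hJ K
  have hp2 : 2 ≤ p := (Fact.out : p.Prime).two_le
  have hH1 : ∀ h ∈ H, derivative h ≠ 0 := by
    intro h hh h0
    exact hH h hh (by rw [h0]; simp)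
  have hH0 : ∀ h ∈ H, h ≠ 0 := by
    intro h hh h0
    exact hH1 h hh (by rw [h0]; simp)
  obtain ⟨w, hw1, hw2, hw3⟩ := hU K p H
  -- the finite set
  set S : Finset K[X] :=
    H ∪ H.image derivative ∪ H.image (fun h => derivative (derivative h)) ∪
      ((H ×ˢ H).image (fun z => derivative z.1 - derivative z.2)).filter (fun f => f ≠ 0) ∪
      ((H ×ˢ H).image (fun z => w z.1 - w z.2)).filter (fun f => f ≠ 0) with hS
  have hS0 : ∀ f ∈ S, f ≠ 0 := by
    intro f hf
    simp only [hS, Finset.mem_union, Finset.mem_image, Finset.mem_filter] at hf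
    rcases hf with (((hf | ⟨h, hh, rfl⟩) | ⟨h, hh, rfl⟩) | hf) | hf
    · exact hH0 f hf
    · exact hH1 h hh
    · exact hH h hh
    · exact hf.2
    · exact hf.2
  obtain ⟨V, hVm, hV4, hVd⟩ := hV K S hS0
  have hVh : ∀ h ∈ H, h ∣ V := by
    intro h hh
    apply hVd
    simp only [hS, Finset.mem_union, Finset.mem_image, Finset.mem_filter]
    exact Or.inl (Or.inl (Or.inl (Or.inl hh)))
  have hVh1 : ∀ h ∈ H, derivative h ∣ V := by
    intro h hh
    apply hVd
    simp only [hS, Finset.mem_union, Finset.mem_image, Finset.mem_filter]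
    exact Or.inl (Or.inl (Or.inl (Or.inr ⟨h, hh, rfl⟩)))
  have hVh2 : ∀ h ∈ H, derivative (derivative h) ∣ V := by
    intro h hh
    apply hVd
    simp only [hS, Finset.mem_union, Finset.mem_image, Finset.mem_filter]
    exact Or.inl (Or.inl (Or.inr ⟨h, hh, rfl⟩))
  have hVh3 : ∀ h ∈ H, ∀ k ∈ H, derivative h ≠ derivative k → derivative h - derivative k ∣ V := by
    intro h hh k hk hne
    apply hVd
    simp only [hS, Finset.mem_union, Finset.mem_image, Finset.mem_filter]
    refine Or.inl (Or.inr ⟨⟨(h, k), ?_, rfl⟩, sub_ne_zero.2 hne⟩)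
    exact Finset.mk_mem_product hh hk
  have hVh4 : ∀ h ∈ H, ∀ k ∈ H, h ≠ k → w h - w k ∣ V := by
    intro h hh k hk hne
    apply hVd
    simp only [hS, Finset.mem_union, Finset.mem_image, Finset.mem_filter]
    refine Or.inr ⟨⟨(h, k), ?_, rfl⟩, sub_ne_zero.2 (hw3 h hh k hk hne)⟩
    exact Finset.mk_mem_product hh hk
  -- the exponent
  set L : ℕ := V.natDegree + ∑ h ∈ H, (w h).natDegree + 1 with hL
  set e : ℕ := p * (2 * L) with he
  have hLe : L ≤ e := by rw [he]; nlinarith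
  have hVe : V.natDegree < e := by omega
  have hwe : ∀ h ∈ H, (w h).natDegree < e := by
    intro h hh
    have := Finset.single_le_sum (f := fun h => (w h).natDegree) (fun i _ => Nat.zero_le _) hh

    omega
  set u : K[X] → K[X] := fun h => w h + X ^ e with hu
  have hwdeg : ∀ h ∈ H, (w h).degree < (e : WithBot ℕ) := by
    intro h hh
    exact lt_of_le_of_lt degree_le_natDegree (by exact_mod_cast hwe h hh)
  have hum : ∀ h ∈ H, (u h).Monic := by
    intro h hh
    simp only [hu]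
    rw [add_comm]
    exact monic_X_pow_add (hwdeg h hh)
  have hudeg : ∀ h ∈ H, (u h).natDegree = e := by
    intro h hh
    simp only [hu]
    rw [natDegree_add_eq_right_of_natDegree_lt (by rw [natDegree_X_pow]; exact hwe h hh),
      natDegree_X_pow]
  have hud : ∀ h ∈ H, derivative (u h) = 1 := by
    intro h hh
    simp only [hu]
    rw [derivative_add, hw1 h hh, derivative_X_pow]
    have : ((e : ℕ) : K) = 0 := by
      rw [he]
      push_cast
      rw [CharP.cast_eq_zero K p]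
      ring
    rw [this]
    simp
  -- rough parts
  have hex : ∀ h : K[X], ∃ σρ : K[X] × K[X], h ∈ H →
      σρ.1.Monic ∧ σρ.2.Monic ∧ u h = σρ.1 * σρ.2 ∧ σρ.1 ∣ V ∧ IsCoprime σρ.2 V ∧
        Squarefree σρ.2 ∧ 0 < σρ.2.natDegree := by
    intro h
    by_cases hh : h ∈ H
    · obtain ⟨σ, ρ, h1⟩ := hR K (u h) V (hum h hh) (hud h hh) hVm (by rw [hudeg h hh]; exact hVe)
      exact ⟨(σ, ρ), fun _ => h1⟩
    · exact ⟨(0, 0), fun h1 => absurd h1 hh⟩
  choose σρ hσρ using hex
  set σ : K[X] → K[X] := fun h => (σρ h).1 with hσ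
  set ρ : K[X] → K[X] := fun h => (σρ h).2 with hρ
  have hσm : ∀ h ∈ H, (σ h).Monic := fun h hh => (hσρ h hh).1
  have hρm : ∀ h ∈ H, (ρ h).Monic := fun h hh => (hσρ h hh).2.1
  have huσρ : ∀ h ∈ H, u h = σ h * ρ h := fun h hh => (hσρ h hh).2.2.1
  have hσV : ∀ h ∈ H, σ h ∣ V := fun h hh => (hσρ h hh).2.2.2.1
  have hρV : ∀ h ∈ H, IsCoprime (ρ h) V := fun h hh => (hσρ h hh).2.2.2.2.1
  have hρsq : ∀ h ∈ H, Squarefree (ρ h) := fun h hh => (hσρ h hh).2.2.2.2.2.1
  have hρpos : ∀ h ∈ H, 0 < (ρ h).natDegree := fun h hh => (hσρ h hh).2.2.2.2.2.2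
  have hcop : ∀ h ∈ H, ∀ k ∈ H, h ≠ k → IsCoprime (ρ h) (ρ k) := by
    intro h hh k hk hne
    have h1 : IsCoprime (ρ h) (w h - w k) :=
      (hρV h hh).of_isCoprime_of_dvd_right (hVh4 h hh k hk hne)
    have h2 : u k = -(w h - w k) + ρ h * σ h := by
      have h3 := huσρ h hh
      have h4 : u k = u h - (w h - w k) := by simp only [hu]; ring
      rw [h4, h3]; ring
    have h3 : IsCoprime (ρ h) (u k) := by
      rw [h2]
      exact (h1.neg_right).add_mul_left_right (σ h)
    exact h3.of_isCoprime_of_dvd_right ⟨σ k, by rw [huσρ k hk]; ring⟩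
  -- leading coefficients and monic associates
  set m : K[X] → K := fun h => (derivative h).leadingCoeff with hm
  set b : K[X] → K[X] := fun h => C ((m h)⁻¹) * derivative h with hb
  have hm0 : ∀ h ∈ H, m h ≠ 0 := fun h hh => leadingCoeff_ne_zero.2 (hH1 h hh)
  have hmb : ∀ h ∈ H, derivative h = C (m h) * b h := by
    intro h hh
    simp only [hb]
    rw [← mul_assoc, ← C_mul, mul_inv_cancel₀ (hm0 h hh)]
    simp
  have hχ : ∀ h ∈ H, quadraticChar K (m h) = 1 ∨ quadraticChar K (m h) = -1 := fun h hh =>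
    quadraticChar_dichotomy (hm0 h hh)
  have hχp : ∀ h ∈ H, ∀ n : ℕ, quadraticChar K (m h) ^ n = 1 ∨ quadraticChar K (m h) ^ n = -1 := by
    intro h hh n
    rcases hχ h hh with h1 | h1
    · left; rw [h1]; simp
    · rw [h1]; exact neg_one_pow_eq_or ℤ n
  have hex2 : ∀ h : K[X], ∃ x : K[X], h ∈ H →
      jac (ρ h) x = quadraticChar K (m h) ^ (σ h).natDegree * t h := by
    intro h
    by_cases hh : h ∈ H
    · have hs : quadraticChar K (m h) ^ (σ h).natDegree * t h = 1 ∨
          quadraticChar K (m h) ^ (σ h).natDegree * t h = -1 := by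
        rcases hχp h hh (σ h).natDegree with h1 | h1 <;> rcases ht h hh with h2 | h2 <;>
          rw [h1, h2] <;> norm_num
      obtain ⟨x, hx⟩ := hNT K hchar (ρ h) (hρm h hh) (hρsq h hh) (hρpos h hh) _ hs
      exact ⟨x, fun _ => hx⟩
    · exact ⟨0, fun h1 => absurd h1 hh⟩
  choose x hx using hex2
  obtain ⟨Y, hYm, hY4, hYN, hYd⟩ := hFR K p V H ρ (fun h => b h * x h - derivative h)
    (fun h hh => ⟨hρm h hh, hρsq h hh, hρV h hh⟩) hcop (∑ h ∈ H, h.natDegree + 1)
  have hVY : (V * Y).natDegree = V.natDegree + Y.natDegree := natDegree_mul hVm.ne_zero hYm.ne_zero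
  have hdeg : ∀ h ∈ H, h.natDegree < (V * Y).natDegree := by
    intro h hh
    have := Finset.single_le_sum (f := fun h : K[X] => h.natDegree) (fun i _ => Nat.zero_le _) hh

    omega
  refine ⟨V, Y, fun h => w h - h + X ^ e, hVm, hYm, hV4, hY4, ?_, hVh3, ?_, ?_⟩
  · intro h hh
    exact ⟨hVh h hh, hVh1 h hh, hVh2 h hh, hdeg h hh⟩
  · intro h hh k hk hhk
    simp only
    rw [hw2 h hh k hk hhk]
  · intro h hh Δ b' m' hΔ hb' hdm hbΔ
    have hvu : (fun h => w h - h + X ^ e) h + h = u h := by simp only [hu]; ring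
    have hm'0 : m' ≠ 0 := by
      rintro rfl
      exact hH1 h hh (by rw [hdm]; simp)
    have huniq : ∀ (b₁ : K[X]) (m₁ : K), b₁.Monic → derivative h = C m₁ * b₁ →
        m₁ = m h ∧ b₁ = b h := by
      intro b₁ m₁ hb₁ hd₁
      have h1 : m₁ = m h := by
        simp only [hm]
        rw [hd₁, leadingCoeff_mul, leadingCoeff_C, hb₁.leadingCoeff, mul_one]
      refine ⟨h1, ?_⟩
      have h2 : C (m h) * b₁ = C (m h) * b h := by
        rw [← hmb h hh, ← h1, ← hd₁]
      exact mul_left_cancel₀ (C_ne_zero.2 (hm0 h hh)) h2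
    obtain ⟨hm'e, hb'e⟩ := huniq b' m' hb' hdm
    have hbm : (b h).Monic := by rw [← hb'e]; exact hb'
    subst hm'e
    subst hb'e
    -- V divides Delta - C m
    have hVΔ : V ∣ Δ - C (m h) := by
      obtain ⟨hD1, -⟩ := hDEL K p V (V * Y) hVm (hVm.mul hYm) (dvd_mul_right V Y)
      obtain ⟨Δ₁, b₁, m₁, -, hb₁, hd₁, -, hbΔ₁, hVΔ₁, -⟩ := hD1 (derivative h) (hH1 h hh)
        (hH h hh) (hVh1 h hh) (hVh2 h hh)
        (lt_of_le_of_lt (natDegree_derivative_le h |>.trans (Nat.sub_le _ _)) (hdeg h hh))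
      obtain ⟨h1, h2⟩ := huniq b₁ m₁ hb₁ hd₁
      have h3 : Δ₁ = Δ := by
        have h4 : b h * Δ₁ = b h * Δ := by
          rw [← h2, hbΔ₁, h2, hbΔ]
        exact mul_left_cancel₀ hbm.ne_zero h4
      rw [h3, h1] at hVΔ₁
      exact hVΔ₁
    have hρΔ : ρ h ∣ Δ - x h := by
      have h1 : ρ h ∣ b h * (Δ - x h) := by
        have h2 := hYd h hh
        have h3 : b h * (Δ - x h) = V ^ p * Y ^ p - (b h * x h - derivative h) := by
          rw [mul_sub, hbΔ, mul_pow]; ring
        rw [h3]; exact h2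
      have h4 : IsCoprime (ρ h) (b h) := by
        apply (hρV h hh).of_isCoprime_of_dvd_right
        exact (Dvd.intro_left (C (m h)) (hmb h hh).symm).trans (hVh1 h hh)
      exact h4.dvd_of_dvd_mul_left h1
    have e1 : jac (ρ h) Δ = quadraticChar K (m h) ^ (σ h).natDegree * t h := by
      rw [hJdvd (ρ h) Δ (x h) (hρm h hh) hρΔ, hx h hh]
    have e2 : jac (σ h) Δ = quadraticChar K (m h) ^ (σ h).natDegree := by
      rw [hJdvd (σ h) Δ (C (m h)) (hσm h hh) ((hσV h hh).trans hVΔ), hJC _ _ (hσm h hh)]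
    have e3 : jac (u h) Δ = t h := by
      rw [huσρ h hh, hJmul _ _ _ (hσm h hh) (hρm h hh), e1, e2, ← mul_assoc]
      rcases hχp h hh (σ h).natDegree with h1 | h1 <;> rw [h1] <;> norm_num
    rw [hvu, hJrec Δ (u h) hΔ (hum h hh), e3, hudeg h hh]
    have hn1 : quadraticChar K (-1) = 1 ∨ quadraticChar K (-1) = -1 :=
      quadraticChar_dichotomy (neg_ne_zero.2 one_ne_zero)
    have hev : Even (Δ.natDegree * e) := by
      rw [he]
      exact (Even.mul_left (Even.mul_left (even_two_mul L) p) Δ.natDegree)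
    rcases hn1 with h1 | h1 <;> rw [h1]
    · simp
    · rw [hev.neg_one_pow]; simp

end Pool.Agent.W819.FL
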